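import Pool.Agent.R6.Trade.Ext

/-!
The numbers of voter types for which trade robustness failures of every order occur.
-/

namespace Pool.Agent.Results.MP_2bafa0_co.UnboundedTypes

open Pool.Agent.R6.Trade

/-- t is unbounded: for every k at least 2 there is a complete simple game with exactly t types of
voters which is k-trade robust but not (k+1)-trade robust. -/
def Unbounded (t : ℕ) : Prop :=
  ∀ k : ℕ, 2 ≤ k → ∃ (N : Type) (_ : Fintype N) (_ : DecidableEq N) (W : Finset N → Prop),
    IsSimple W ∧ IsComplete W ∧ HasTypes W t ∧ TradeRobust W k ∧ ¬ TradeRobust W (k + 1)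

/-- **The unbounded values of t are exactly the integers t with t at least 4.** -/
theorem result (t : ℕ) : Unbounded t ↔ 4 ≤ t := by
  constructor
  · intro h
    by_contra ht
    push Not at ht
    obtain ⟨N, hN, hD, W, hS, -, ⟨τ, -, hτ⟩, hR, hnR⟩ := h 3 (by norm_num)
    apply hnR
    exact (weighted_of_three_types hS (fun v => Fin.castLE (by omega) (τ v)) (fun a b h =>
      ((hτ a b).1 (Fin.castLE_injective _ h)).1) hR).tradeRobust _
  · intro ht k hk
    exact ex_four hk ht

end Pool.Agent.Results.MP_2bafa0_co.UnboundedTypes
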